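import Pool.Agent.KTK.Stmts2
import Pool.Agent.Helper45_KTK.CLS

/-!
KTK, row CL2: the closing lemma with explicit closeness (from helper45's `clsx`).
-/

set_option autoImplicit false

namespace Pool.Agent.KTK.H43

open Pool.Agent.PRT Pool.Agent.KTK

theorem cl2 (hANG : AngStmt) (hBOX : BoxStmt) (hCHN : ChnStmt) (hCRO : CroStmt) : Cl2Stmt := by
  intro g D C0 ρ hg hb hD hC0 hq hρ0 hρ N x e f α β hS j j' hjj hjN hGj hGj' a b hx he hf
  exact H45.clsx hANG hBOX hCHN hCRO g D hg hb hD C0 hC0 hq ρ hρ0 hρ N x e f α β hS j j' hjj hjN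
    hGj hGj' a b hx he hf

end Pool.Agent.KTK.H43
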